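import Pool.Agent.Helper28.WK.StA

/-!
# Project WK, module K: the kernel of `ev` is the image of `u - 1`
-/

set_option autoImplicit false

namespace Pool.Agent.Helper47.WK

open Pool.Agent.Helper14.CV Pool.Agent.Helper28.WK

private theorem sym_mono {G : ℤ → ℤ → ℂ} {s s' : ℕ} (hs : s ≤ s') (h : Sym 0 s G) :
    Sym 0 s' G :=
  ⟨h.1, fun a b c d hd hb hc => h.2 a b c d hd hb ((pow_dvd_pow 2 hs).trans hc)⟩

private theorem aux (hks : Ks) (hbse : Bse) (n : ℕ) : ∀ G : ℤ → ℤ → ℂ, Sym 0 (n + 3) G →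
    EqC (act 0 (-1) (2 ^ (n + 3)) 0 G) (-G) → EqC (act (-1) 0 0 1 G) G →
    (∀ i j : ℕ, ev 1 G i j = 0) →
    ∃ ψ : ℤ → ℤ → ℂ, Sym 0 (n + 2) ψ ∧ EqC (act 2 0 0 1 ψ - ψ) G := by
  induction n with
  | zero =>
    intro G hG hW hS hev
    obtain ⟨G', ψ, hG', hψ, hW', _, hev', hE⟩ := hks 3 G le_rfl hG hW hS hev
    refine ⟨ψ, hψ, ?_⟩
    have h00 : G' 1 0 - G' 0 1 = 0 := hev' 0 0
    have h0 : EqC G' 0 := hbse G' hG' hW' (sub_eq_zero.mp h00)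
    have h1 : EqC (G' + (act 2 0 0 1 ψ - ψ)) (0 + (act 2 0 0 1 ψ - ψ)) := h0.add (EqC.refl _)
    rw [zero_add] at h1
    exact (hE.trans h1).symm
  | succ n ih =>
    intro G hG hW hS hev
    obtain ⟨G', ψ, hG', hψ, hW', hS', hev', hE⟩ := hks (n + 1 + 3) G (by omega) hG hW hS hev
    have e1 : n + 1 + 3 - 1 = n + 3 := by omega
    rw [e1] at hG' hψ hW'
    obtain ⟨ψ', hψ', hE'⟩ := ih G' hG' hW' hS' hev'
    refine ⟨ψ' + ψ, (sym_mono (by omega) hψ').add (sym_mono (by omega) hψ), ?_⟩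
    have h1 : EqC (act 2 0 0 1 ψ' - ψ' + (act 2 0 0 1 ψ - ψ)) (G' + (act 2 0 0 1 ψ - ψ)) :=
      hE'.add (EqC.refl _)
    have h2 : act 2 0 0 1 (ψ' + ψ) - (ψ' + ψ) = act 2 0 0 1 ψ' - ψ' + (act 2 0 0 1 ψ - ψ) := by
      rw [act_add, add_sub_add_comm]
    rw [h2]
    exact h1.trans hE.symm

theorem hK : StK := by
  intro hks hbse m G hm hG hW hS hev
  obtain ⟨n, rfl⟩ : ∃ n, m = n + 3 := ⟨m - 3, by omega⟩
  exact aux hks hbse n G hG hW hS hev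

end Pool.Agent.Helper47.WK
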